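import Pool.Agent.helper41.DMax.Main

/-!
# MP_72af47_al: the nilpotency class of `d`-maximal `2`-groups is not bounded

The groups: `C = (ℤ/2)^(m+1)` acts by translations on the additive group `N` of the functions `C → ℤ/2^m` generated by the constants
and the functions `2^(|I|-1) ∏_{i ∈ I} x_i` (the nonclassical polynomials of degree at most `m`); `G = N ⋊ C`.
-/

set_option autoImplicit false

namespace Pool.Agent.Results.MP_72af47_al.UnboundedClass

open Pool.Agent.H41.DMax

/-- For every `c` there is a finite `2`-group `G` all of whose proper subgroups can be generated by fewer elements than `G`, with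
nilpotency class larger than `c`; moreover `G` has an abelian normal subgroup which contains all squares. -/
theorem result (c : ℕ) : ∃ (G : Type) (_ : Group G) (_ : Finite G), IsPGroup 2 G ∧
    (∀ H : Subgroup G, H < ⊤ → Group.rank H < Group.rank G) ∧
    Group.IsNilpotent G ∧ c < Group.nilpotencyClass G ∧
    ∃ A : Subgroup G, A.Normal ∧ (∀ a ∈ A, ∀ b ∈ A, a * b = b * a) ∧ ∀ g : G, g ^ 2 ∈ A := by
  classical
  have hm : 1 ≤ c + 1 := by omega
  have hr : c + 1 + 1 ≤ c + 2 := le_rfl
  have hp : IsPGroup 2 (Gs (c + 1) (c + 2)) := isPGroup_WW.to_subgroup _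
  haveI : Fact (Nat.Prime 2) := ⟨Nat.prime_two⟩
  have hnil : Group.IsNilpotent (Gs (c + 1) (c + 2)) := hp.isNilpotent
  refine ⟨Gs (c + 1) (c + 2), inferInstance, inferInstance, hp, ?_, hnil, ?_, ?_⟩
  · intro H hH
    have hinj : Function.Injective (Gs (c + 1) (c + 2)).subtype := Subtype.coe_injective
    have hlt : H.map (Gs (c + 1) (c + 2)).subtype < Gs (c + 1) (c + 2) := by
      have h1 := (Subgroup.map_lt_map_iff_of_injective hinj).mpr hH
      rwa [← MonoidHom.range_eq_map, Subgroup.range_subtype] at h1
    obtain ⟨s, hs, hst⟩ := dmax hm hr _ hlt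
    have h1 : Group.rank H ≤ s.card := by
      have h2 : Group.rank H = Group.rank (H.map (Gs (c + 1) (c + 2)).subtype) :=
        Group.rank_congr (H.equivMapOfInjective _ hinj)
      have h3 : Group.rank (H.map (Gs (c + 1) (c + 2)).subtype) ≤ s.card := by
        have h4 : ∀ (K : Subgroup (WW (c + 1) (c + 2))), Subgroup.closure (s : Set (WW (c + 1) (c + 2))) = K →
            Group.rank K ≤ s.card := by
          rintro K rfl
          exact Subgroup.rank_closure_finset_le_card s
        exact h4 _ hs
      omega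
    obtain ⟨t, ht, htc⟩ := Group.rank_spec (Gs (c + 1) (c + 2))
    have h2 : Subgroup.closure ((t.image (Gs (c + 1) (c + 2)).subtype : Finset (WW (c + 1) (c + 2))) :
        Set (WW (c + 1) (c + 2))) = Gs (c + 1) (c + 2) := by
      rw [Finset.coe_image, ← MonoidHom.map_closure, htc, ← MonoidHom.range_eq_map, Subgroup.range_subtype]
    have h3 := hst _ h2
    have h4 : (t.image (Gs (c + 1) (c + 2)).subtype).card ≤ t.card := Finset.card_image_le
    omega
  · by_contra hcon
    have h1 := (Subgroup.lowerCentralSeries_eq_bot_iff_nilpotencyClass_le (G := Gs (c + 1) (c + 2)) (n := c + 1)).mpr (by omega)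
    apply lcs_ne_bot hm hr
    rw [← Subgroup.top_subtype_lowerCentralSeries, h1, Subgroup.map_bot]
  · refine ⟨{ carrier := {w | w.1.c = 0}, mul_mem' := ?_, one_mem' := rfl, inv_mem' := ?_ }, ⟨?_⟩, ?_, ?_⟩
    · intro a b ha hb
      show (a.1 * b.1).c = 0
      rw [WW.mul_c, show a.1.c = 0 from ha, show b.1.c = 0 from hb, add_zero]
    · intro a ha
      show (a.1⁻¹).c = 0
      rw [WW.inv_c, show a.1.c = 0 from ha, neg_zero]
    · intro a ha g
      show (g.1 * a.1 * g.1⁻¹).c = 0
      rw [WW.mul_c, WW.mul_c, WW.inv_c, show a.1.c = 0 from ha, add_zero, add_neg_cancel]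
    · intro a ha b hb
      apply Subtype.ext
      apply WW.ext
      · show (a.1 * b.1).f = (b.1 * a.1).f
        rw [WW.mul_f, WW.mul_f, show a.1.c = 0 from ha, show b.1.c = 0 from hb, tr_zero, tr_zero]
        exact add_comm _ _
      · show (a.1 * b.1).c = (b.1 * a.1).c
        rw [WW.mul_c, WW.mul_c]
        exact add_comm _ _
    · intro g
      show ((g ^ 2 : Gs (c + 1) (c + 2)) : WW (c + 1) (c + 2)).c = 0
      rw [SubmonoidClass.coe_pow, pow_two, WW.mul_c, CC_add_self]

end Pool.Agent.Results.MP_72af47_al.UnboundedClass
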